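import Mathlib
import Pool.Agent.helper77.BSD.In4
import Pool.Agent.helper63.Rank

set_option autoImplicit false

open scoped Classical
open NumberField

namespace Pool.Agent.Results.MP_32c55d_nt.RankZeroTwists

/-- The rank conjecture, with analytic continuation, nonvanishing at `1` and a finite group of
points, for infinitely many quadratic twists `y ^ 2 + y = x ^ 3 + (β ^ 3 - 1) / 4` of the curve
`y ^ 2 + y = x ^ 3` over the field of `√-7`. -/
theorem result (K : Type) [Field K] [NumberField K] (hK : Module.finrank ℚ K = 2) (s : K)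
    (hs : s ^ 2 = -7) :
    {β : 𝓞 K | (4 : 𝓞 K) ∣ β - 1 ∧ Squarefree (Algebra.norm ℤ β) ∧
      ∀ p : ℕ, p.Prime → (p : ℤ) ∣ Algebra.norm ℤ β → ∀ x : ZMod p, x ^ 3 ≠ 2}.Infinite ∧
    ∀ β : 𝓞 K, (4 : 𝓞 K) ∣ β - 1 → Squarefree (Algebra.norm ℤ β) →
      (∀ p : ℕ, p.Prime → (p : ℤ) ∣ Algebra.norm ℤ β → ∀ x : ZMod p, x ^ 3 ≠ 2) →
      ∃ b : 𝓞 K, 4 * b = β ^ 3 - 1 ∧
        (⟨0, 0, 1, 0, (b : K)⟩ : WeierstrassCurve K).IsElliptic ∧
        Finite (⟨0, 0, 1, 0, (b : K)⟩ : WeierstrassCurve K).toAffine.Point ∧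
        ∃ (U : Set ℂ) (F : ℂ → ℂ),
          IsOpen U ∧ IsConnected U ∧ {z : ℂ | (3 / 2 : ℝ) < z.re} ⊆ U ∧ (1 : ℂ) ∈ U ∧
          AnalyticOnNhd ℂ F U ∧
          (∀ z : ℂ, (3 / 2 : ℝ) < z.re →
            F z = (⟨0, 0, 1, 0, (b : K)⟩ : WeierstrassCurve K).LSeries z) ∧
          F 1 ≠ 0 ∧
          (∀ r : ℕ, r < Module.finrank ℤ
            (⟨0, 0, 1, 0, (b : K)⟩ : WeierstrassCurve K).toAffine.Point →
              iteratedDeriv r F 1 = 0) ∧
          iteratedDeriv (Module.finrank ℤ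
            (⟨0, 0, 1, 0, (b : K)⟩ : WeierstrassCurve K).toAffine.Point) F 1 ≠ 0 := by
  refine ⟨Pool.Agent.helper77.BSD.infinite_twists hs hK, fun β h1 hsq hcub => ?_⟩
  obtain ⟨β₀, n, hβ, rfl⟩ := Pool.Agent.helper77.BSD.exists_Bet hs hK h1 hsq hcub
  obtain ⟨c, hc⟩ := h1
  set β := Pool.Agent.helper77.BSD.rho hs β₀ with hβdef
  have h0 : β ≠ 0 := by
    intro h0
    rw [h0, Algebra.norm_zero] at hsq
    exact not_squarefree_zero hsq
  have hB : 4 * (c * (β ^ 2 + β + 1)) = β ^ 3 - 1 := by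
    linear_combination (-(β ^ 2 + β + 1)) * hc
  have hfin := Pool.Agent.helper63.Rank.rank_side_norm K hK s hs β _ hB ⟨c, hc⟩ h0 hcub
  obtain ⟨U, F, hU1, hU2, hU3, hU4, hF, hFL, hF1⟩ := hβ.analytic_side hs hK hB
  have hrank : Module.finrank ℤ (⟨0, 0, 1, 0, ((c * (β ^ 2 + β + 1) : 𝓞 K) : K)⟩ :
      WeierstrassCurve K).toAffine.Point = 0 := by
    refine Module.IsTorsion.finrank_eq_zero fun {P} => ?_
    obtain ⟨k, hk, hkP⟩ := isOfFinAddOrder_iff_nsmul_eq_zero.1 (isOfFinAddOrder_of_finite P)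
    refine ⟨⟨(k : ℤ), mem_nonZeroDivisors_of_ne_zero (by exact_mod_cast hk.ne')⟩, ?_⟩
    change (k : ℤ) • P = 0
    rw [natCast_zsmul]
    exact hkP
  refine ⟨c * (β ^ 2 + β + 1), hB, ?_, hfin, U, F, hU1, hU2, hU3, hU4, hF, hFL, hF1, ?_, ?_⟩
  · rw [WeierstrassCurve.isElliptic_iff, isUnit_iff_ne_zero]
    have hBK : 1 + 4 * (((c * (β ^ 2 + β + 1) : 𝓞 K)) : K) = (β : K) ^ 3 := by
      have h1 := congrArg (algebraMap (𝓞 K) K) hB
      rw [map_mul, map_sub, map_pow, map_one, map_ofNat] at h1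
      linear_combination h1
    generalize (((c * (β ^ 2 + β + 1) : 𝓞 K)) : K) = B at hBK
    have hΔ : (⟨0, 0, 1, 0, B⟩ : WeierstrassCurve K).Δ = -27 * (1 + 4 * B) ^ 2 := by
      simp only [WeierstrassCurve.Δ, WeierstrassCurve.b₂, WeierstrassCurve.b₄,
        WeierstrassCurve.b₆, WeierstrassCurve.b₈]
      ring
    rw [hΔ, hBK]
    have hβ0 : (β : K) ≠ 0 := by
      intro h
      apply h0
      exact RingOfIntegers.ext h
    exact mul_ne_zero (by norm_num) (pow_ne_zero _ (pow_ne_zero _ hβ0))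
  · intro r hr
    rw [hrank] at hr
    exact absurd hr (Nat.not_lt_zero r)
  · rw [hrank, iteratedDeriv_zero]
    exact hF1

end Pool.Agent.Results.MP_32c55d_nt.RankZeroTwists
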