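import Mathlib
import Pool.Agent.helper77.Tow.Final

set_option autoImplicit false

open scoped Classical
open NumberField

namespace Pool.Agent.Results.MP_32c55d_nt.SilentTwoTowers

/-- The rank conjecture, with analytic continuation, nonvanishing at `1` and a finite group of
points, for the curve `y ^ 2 + y = x ^ 3` over every number field `K` which embeds in a Galois
extension `L` of `ℚ` of degree a power of two in which only `3` and odd primes modulo which two is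
not a cube ramify. -/
theorem result (L : Type) [Field L] [NumberField L] [IsGalois ℚ L] (n : ℕ)
    (hn : Module.finrank ℚ L = 2 ^ n)
    (hL : ∀ l : ℕ, l.Prime → (l : ℤ) ∣ discr L → l ≠ 2 ∧ (l = 3 ∨ ¬ ∃ x : ZMod l, x ^ 3 = 2))
    (K : Type) [Field K] [NumberField K] (i : K →+* L) :
    (⟨0, 0, 1, 0, 0⟩ : WeierstrassCurve K).IsElliptic ∧
    Finite (⟨0, 0, 1, 0, 0⟩ : WeierstrassCurve K).toAffine.Point ∧
    ∃ (U : Set ℂ) (F : ℂ → ℂ),
      IsOpen U ∧ IsConnected U ∧ {z : ℂ | (3 / 2 : ℝ) < z.re} ⊆ U ∧ (1 : ℂ) ∈ U ∧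
      AnalyticOnNhd ℂ F U ∧
      (∀ z : ℂ, (3 / 2 : ℝ) < z.re →
        F z = (⟨0, 0, 1, 0, 0⟩ : WeierstrassCurve K).LSeries z) ∧
      F 1 ≠ 0 ∧
      (∀ r : ℕ, r < Module.finrank ℤ
        (⟨0, 0, 1, 0, 0⟩ : WeierstrassCurve K).toAffine.Point → iteratedDeriv r F 1 = 0) ∧
      iteratedDeriv (Module.finrank ℤ
        (⟨0, 0, 1, 0, 0⟩ : WeierstrassCurve K).toAffine.Point) F 1 ≠ 0 := by
  letI : Algebra K L := i.toAlgebra
  obtain ⟨⟨hfin, -, -⟩, U, F, hU1, hU2, hU3, hU4, hF, hFL, hF1⟩ :=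
    Pool.Agent.helper77.Tow.tower_all (K := K) (L := L) ⟨n, hn⟩ hL
  have hrank : Module.finrank ℤ
      (⟨0, 0, 1, 0, 0⟩ : WeierstrassCurve K).toAffine.Point = 0 := by
    refine Module.IsTorsion.finrank_eq_zero fun {P} => ?_
    obtain ⟨k, hk, hkP⟩ := isOfFinAddOrder_iff_nsmul_eq_zero.1 (isOfFinAddOrder_of_finite P)
    refine ⟨⟨(k : ℤ), mem_nonZeroDivisors_of_ne_zero (by exact_mod_cast hk.ne')⟩, ?_⟩
    change (k : ℤ) • P = 0
    rw [natCast_zsmul]
    exact hkP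
  refine ⟨?_, hfin, U, F, hU1, hU2, hU3, hU4, hF, hFL, hF1, ?_, ?_⟩
  · rw [WeierstrassCurve.isElliptic_iff, isUnit_iff_ne_zero]
    simp only [WeierstrassCurve.Δ, WeierstrassCurve.b₂, WeierstrassCurve.b₄,
      WeierstrassCurve.b₆, WeierstrassCurve.b₈]
    norm_num
  · intro r hr
    rw [hrank] at hr
    exact absurd hr (Nat.not_lt_zero r)
  · rw [hrank, iteratedDeriv_zero]
    exact hF1

end Pool.Agent.Results.MP_32c55d_nt.SilentTwoTowers
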